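import Pool.Agent.Helper85.QT.St3

set_option autoImplicit false

open MeasureTheory Matrix Set Topology
open scoped ENNReal ComplexConjugate

namespace Pool.Agent.Helper22.QT

open Pool.Agent.Helper85.QT Pool.Agent.Helper86.QA

private theorem ext4 (r : ℝ) (hr : 0 < r) :
    ∫⁻ ζ : ℂ, {ζ : ℂ | r ≤ ‖ζ‖}.indicator (fun ζ => ENNReal.ofReal (1 / ‖ζ‖ ^ 4)) ζ =
      ENNReal.ofReal (Real.pi / r ^ 2) := by
  set f : ℝ → ℝ := (Ici r).indicator (fun t : ℝ => 1 / t ^ 4) with hf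
  have hI : IntegrableOn (fun t : ℝ => t ^ (-3 : ℝ)) (Ioi r) :=
    integrableOn_Ioi_rpow_of_lt (by norm_num) hr
  have hIc : ∫ t in Ioi r, t ^ (-3 : ℝ) = 1 / (2 * r ^ 2) := by
    rw [integral_Ioi_rpow_of_lt (by norm_num) hr]
    have h1 : (-3 : ℝ) + 1 = -2 := by norm_num
    rw [h1, Real.rpow_neg hr.le]
    have h2 : r ^ (2 : ℝ) = r ^ 2 := by
      rw [show (2 : ℝ) = ((2 : ℕ) : ℝ) by norm_num, Real.rpow_natCast]
    rw [h2]
    field_simp
  have hpt : ∀ t : ℝ, 0 < t → (t ^ (2 - 1)) • f t = (Ici r).indicator (fun t : ℝ => t ^ (-3 : ℝ)) t := by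
    intro t ht
    by_cases h : t ∈ Ici r
    · rw [hf, indicator_of_mem h, indicator_of_mem h, smul_eq_mul]
      rw [show (-3 : ℝ) = -((3 : ℕ) : ℝ) by norm_num, Real.rpow_neg ht.le, Real.rpow_natCast]
      field_simp
      simp
    · rw [hf, indicator_of_notMem h, indicator_of_notMem h, smul_zero]
  have hI2 : IntegrableOn (fun y : ℝ => y ^ (Module.finrank ℝ ℂ - 1) • f y) (Ioi 0) := by
    rw [Complex.finrank_real_complex]
    have h3 : IntegrableOn ((Ici r).indicator (fun t : ℝ => t ^ (-3 : ℝ))) (Ioi 0) := by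
      apply Integrable.integrableOn
      rw [integrable_indicator_iff measurableSet_Ici]
      exact (integrableOn_Ici_iff_integrableOn_Ioi).2 hI
    exact h3.congr_fun (fun t ht => (hpt t ht).symm) measurableSet_Ioi
  have hint : Integrable (fun ζ : ℂ => f ‖ζ‖) := (integrable_fun_norm_addHaar (volume : Measure ℂ)).2 hI2
  have hval : ∫ ζ : ℂ, f ‖ζ‖ = Real.pi / r ^ 2 := by
    rw [integral_fun_norm_addHaar (volume : Measure ℂ), Complex.finrank_real_complex]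
    have h4 : ∫ y in Ioi (0 : ℝ), y ^ (2 - 1) • f y = 1 / (2 * r ^ 2) := by
      rw [setIntegral_congr_fun measurableSet_Ioi (g := (Ici r).indicator (fun t : ℝ => t ^ (-3 : ℝ)))
        (fun t ht => hpt t ht)]
      rw [setIntegral_indicator measurableSet_Ici]
      have : Ioi (0 : ℝ) ∩ Ici r = Ici r := by
        ext t
        simp only [mem_inter_iff, mem_Ioi, mem_Ici]
        constructor
        · exact fun h => h.2
        · exact fun h => ⟨lt_of_lt_of_le hr h, h⟩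
      rw [this, integral_Ici_eq_integral_Ioi, hIc]
    rw [h4]
    have h5 : (volume : Measure ℂ).real (Metric.ball (0 : ℂ) 1) = Real.pi := by
      rw [measureReal_def, Complex.volume_ball]
      simp
    rw [h5]
    simp only [smul_eq_mul, nsmul_eq_mul]
    push_cast
    field_simp
  rw [← hval, ofReal_integral_eq_lintegral_ofReal hint (Filter.Eventually.of_forall fun ζ => ?_)]
  · apply lintegral_congr
    intro ζ
    by_cases h : r ≤ ‖ζ‖
    · rw [hf, indicator_of_mem (show ζ ∈ {ζ : ℂ | r ≤ ‖ζ‖} from h), indicator_of_mem (show ‖ζ‖ ∈ Ici r from h)]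
    · rw [hf, indicator_of_notMem (show ζ ∉ {ζ : ℂ | r ≤ ‖ζ‖} from h), indicator_of_notMem (show ‖ζ‖ ∉ Ici r from h),
        ENNReal.ofReal_zero]
  · show 0 ≤ f ‖ζ‖
    rw [hf]
    exact indicator_nonneg (fun t _ => by positivity) _

theorem hLIA (hHME : Pool.Agent.Helper86.QA.StHME) (hFDC : StFDC) (hTTX : StTTX) (hVIS : StVIS)
    (hFLT : StFLT) (hNEA : StNEA) (hANB : StANB) (hLSD : StLSD) : Pool.Agent.Helper85.QT.StLIA := by
  obtain ⟨C0, m0, hC0, hm0, hL⟩ := hLSD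
  refine ⟨4 * 10 ^ 6, 6, by norm_num, ?_⟩
  intro Γ _ ρ A B α lam M G m φ C3 hAn hm x hx hsb
  obtain ⟨hlam, _, _, _, _, _, _, hlm, _, _, _, hdif, hinj, hder, hopen⟩ := hANB Γ ρ A B α lam M G m φ C3 hAn
  obtain ⟨hE1, hE2⟩ := hopen (m / 3) (2 * m / 3) (by linarith) (by linarith)
  obtain ⟨hT1, hT2, hT3⟩ := (hTTX lam hlam).1 x hx
  obtain ⟨hI, hv0, hv1⟩ := hHME.1 (EE lam G φ (m / 3) (2 * m / 3)) x hE2.measurableSet hx
  have hml : 0 < m := by linarith
  have hln : 0 < ‖lam‖ := norm_pos_iff.2 hlam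
  rcases le_or_gt (m / 600) (TT lam x) with hc | hc
  · have h1 : m ^ 2 ≤ (600 * TT lam x) ^ 2 := by
      apply pow_le_pow_left₀ hml.le
      linarith
    have h2 : 1 ≤ 4 * 10 ^ 6 * TT lam x ^ 2 / m ^ 2 := by
      rw [le_div_iff₀ (by positivity)]
      nlinarith [sq_nonneg (TT lam x)]
    linarith
  have hlT : ‖lam‖ * TT lam x ≤ 2 * Real.pi / 600 := by
    have h1 : ‖lam‖ * TT lam x ≤ ‖lam‖ * (m / 600) := mul_le_mul_of_nonneg_left hc.le hln.le
    have h2 : ‖lam‖ * (m / 600) = ‖lam‖ * m / 600 := by ring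
    rw [h2] at h1
    have h3 : ‖lam‖ * m / 600 ≤ 2 * Real.pi / 600 := by
      apply div_le_div_of_nonneg_right hlm (by norm_num)
    exact h1.trans h3
  have hpi := Real.pi_lt_d2
  have hpi0 := Real.pi_pos
  have hx1 : x.1 ≠ 0 := by
    apply hT3.1
    rw [mul_comm]
    linarith
  obtain ⟨hp0, -, -, -⟩ := (hTTX lam hlam).2.2.1 x hx hx1
  obtain ⟨ξ, hξ, hξ0, hfx⟩ := (hNEA Γ ρ A B hAn.kd lam hlam).1 0 le_rfl x hx hsb (by
    have : 2 * (2 * 0 + 3) * ‖lam‖ * TT lam x = 6 * (‖lam‖ * TT lam x) := by ring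
    rw [this]
    linarith)
  have hfx' : fd lam (rd x) ξ ≤ m / 100 := by
    have : 2 * (2 * 0 + 3) * TT lam x ≤ m / 100 := by linarith
    linarith
  obtain ⟨hF1, hF2, -, -, -⟩ := hFDC lam hlam
  -- distance from the middle
  have hdist : ∀ η ∈ EE lam G φ (m / 3) (2 * m / 3), η ≠ 0 ∧ m / 100 ≤ fd lam (rd x) η := by
    rintro η ⟨w, hw, rfl⟩
    have hη0 : Complex.exp (lam * G (φ w)) ≠ 0 := Complex.exp_ne_zero _
    refine ⟨hη0, ?_⟩
    obtain ⟨hw1, hw2⟩ := hw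
    have hdd : m / 3 ≤ dd m w := by
      unfold dd
      exact le_min hw1.le (by linarith)
    have h1 : m / 3 / 16 ≤ fd lam (Complex.exp (lam * G (φ w))) ξ :=
      (hL Γ ρ A B α lam M G m φ C3 hAn).2.1 w (m / 3) (by linarith) hdd ξ hξ hξ0
    have h2 := hF2 (Complex.exp (lam * G (φ w))) (rd x) ξ hη0 hp0 hξ0
    have h3 := (hF1 (Complex.exp (lam * G (φ w))) (rd x)).1
    show m / 100 ≤ fd lam (rd x) (Complex.exp (lam * G (φ w)))
    rw [← h3]
    linarith
  have hfdlog : ∀ η : ℂ, ‖Complex.log (η / rd x) / lam‖ = fd lam (rd x) η := by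
    intro η
    rw [norm_div, (hF1 (rd x) η).1]
    rfl
  -- the integrand
  have hr0 : 0 < m / 100 := by linarith
  set F : ℂ → ℝ≥0∞ := fun ζ => ENNReal.ofReal (400 * TT lam x ^ 2) *
    {ζ : ℂ | m / 100 ≤ ‖ζ‖}.indicator (fun ζ => ENNReal.ofReal (1 / ‖ζ‖ ^ 4)) ζ with hFd
  have hmeas0 : Measurable (fun ζ : ℂ => {ζ : ℂ | m / 100 ≤ ‖ζ‖}.indicator (fun ζ => ENNReal.ofReal (1 / ‖ζ‖ ^ 4)) ζ) := by
    apply Measurable.indicator
    · apply ENNReal.measurable_ofReal.comp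
      exact (measurable_norm.pow_const 4).const_div 1
    · exact measurableSet_le measurable_const measurable_norm
  have hFm : Measurable F := hmeas0.const_mul _
  have hFint : ∫⁻ ζ, F ζ = ENNReal.ofReal (400 * TT lam x ^ 2 * (Real.pi / (m / 100) ^ 2)) := by
    rw [hFd, lintegral_const_mul _ hmeas0, ext4 _ hr0,
      ← ENNReal.ofReal_mul (p := 400 * TT lam x ^ 2) (by positivity)]
  have hpt : ∀ η ∈ EE lam G φ (m / 3) (2 * m / 3), ENNReal.ofReal (pp x η ^ 2) ≤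
      F (Complex.log (η / rd x) / lam) * ENNReal.ofReal (1 / (‖lam‖ ^ 2 * ‖η‖ ^ 2)) := by
    intro η hη
    obtain ⟨hη0, hd⟩ := hdist η hη
    have hηn : 0 < ‖η‖ := norm_pos_iff.2 hη0
    have hmem : Complex.log (η / rd x) / lam ∈ {ζ : ℂ | m / 100 ≤ ‖ζ‖} := by
      show m / 100 ≤ ‖Complex.log (η / rd x) / lam‖
      rw [hfdlog]
      exact hd
    rw [hFd]
    simp only
    rw [indicator_of_mem hmem, hfdlog, ← ENNReal.ofReal_mul (by positivity), ← ENNReal.ofReal_mul (by positivity)]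
    apply ENNReal.ofReal_le_ofReal
    have hdp : 0 < fd lam (rd x) η := lt_of_lt_of_le hr0 hd
    have h1 := (hVIS lam hlam x hx hx1 η hη0).1
    have h2 : 20 * TT lam x / (TT lam x ^ 2 + fd lam (rd x) η ^ 2) ≤ 20 * TT lam x / fd lam (rd x) η ^ 2 := by
      apply div_le_div_of_nonneg_left (by positivity) (by positivity)
      nlinarith [sq_nonneg (TT lam x)]
    have h3 := h1.trans h2
    have hpp : 0 ≤ pp x η := by
      unfold pp
      have : 0 < x.2 := hx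
      positivity
    have h4 : (‖lam‖ * ‖η‖ * pp x η) ^ 2 ≤ (20 * TT lam x / fd lam (rd x) η ^ 2) ^ 2 :=
      pow_le_pow_left₀ (by positivity) h3 2
    have h5 : pp x η ^ 2 = (‖lam‖ * ‖η‖ * pp x η) ^ 2 * (1 / (‖lam‖ ^ 2 * ‖η‖ ^ 2)) := by
      field_simp
    have h6 : 400 * TT lam x ^ 2 * (1 / fd lam (rd x) η ^ 4) = (20 * TT lam x / fd lam (rd x) η ^ 2) ^ 2 := by
      field_simp
      norm_num
    rw [h5, h6]
    exact mul_le_mul_of_nonneg_right h4 (by positivity)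
  have hbound : ∫ η in EE lam G φ (m / 3) (2 * m / 3), pp x η ^ 2 ≤ 400 * TT lam x ^ 2 * (Real.pi / (m / 100) ^ 2) := by
    have h0 : 0 ≤ 400 * TT lam x ^ 2 * (Real.pi / (m / 100) ^ 2) := by positivity
    rw [← ENNReal.ofReal_le_ofReal_iff h0, ← hFint,
      ofReal_integral_eq_lintegral_ofReal hI (Filter.Eventually.of_forall fun η => sq_nonneg _)]
    calc ∫⁻ η in EE lam G φ (m / 3) (2 * m / 3), ENNReal.ofReal (pp x η ^ 2)
        ≤ ∫⁻ η in EE lam G φ (m / 3) (2 * m / 3),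
          F (Complex.log (η / rd x) / lam) * ENNReal.ofReal (1 / (‖lam‖ ^ 2 * ‖η‖ ^ 2)) :=
          setLIntegral_mono' hE2.measurableSet hpt
      _ ≤ ∫⁻ η, F (Complex.log (η / rd x) / lam) * ENNReal.ofReal (1 / (‖lam‖ ^ 2 * ‖η‖ ^ 2)) :=
          setLIntegral_le_lintegral _ _
      _ ≤ ∫⁻ ζ, F ζ := hFLT lam (rd x) hlam hp0 F hFm
  unfold hv
  calc 1 / Real.pi * ∫ η in EE lam G φ (m / 3) (2 * m / 3), pp x η ^ 2
      ≤ 1 / Real.pi * (400 * TT lam x ^ 2 * (Real.pi / (m / 100) ^ 2)) :=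
        mul_le_mul_of_nonneg_left hbound (by positivity)
    _ = 4 * 10 ^ 6 * TT lam x ^ 2 / m ^ 2 := by
        field_simp
        norm_num

end Pool.Agent.Helper22.QT
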